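import Mathlib
import Pool.Agent.Results.MP_5e6778_nt.Growth

/-!
Steps for partial representations of `1` by blocks (helper350), with cancellation of a common factor of
the remainder, and with pairs of consecutive denominators.
-/

set_option autoImplicit false

namespace Pool.Agent.Y350.FR

open Finset Pool.Agent.Results.MP_5e6778_nt.Growth

theorem union_Icc {k : ℕ} {S : Finset ℕ} (h : IsUnionOfBlocks k S) {c d : ℕ} (hcd : c ≤ d) :
    IsUnionOfBlocks (k + 1) (Finset.Icc c d ∪ S) := by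
  obtain ⟨a, b, hab, hS⟩ := h
  refine ⟨Fin.snoc a c, Fin.snoc b d, ?_, ?_⟩
  · intro i
    induction i using Fin.lastCases with
    | last => simp only [Fin.snoc_last]; exact hcd
    | cast i => simp only [Fin.snoc_castSucc]; exact hab i
  · ext x
    simp only [Finset.mem_union, hS, Finset.mem_biUnion, Finset.mem_univ, true_and,
      Finset.mem_Icc]
    constructor
    · rintro (h | ⟨i, hi⟩)
      · refine ⟨Fin.last k, ?_⟩
        simp only [Fin.snoc_last]
        omega
      · refine ⟨i.castSucc, ?_⟩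
        simp only [Fin.snoc_castSucc]
        exact hi
    · rintro ⟨i, hi⟩
      induction i using Fin.lastCases with
      | last => simp only [Fin.snoc_last] at hi; left; omega
      | cast i => simp only [Fin.snoc_castSucc] at hi; right; exact ⟨i, hi⟩

/-- Replace `1 / D` by `1 / (2D) + 1 / (2D+1) + 1 / (2D(2D+1))`. -/
theorem st_pair {k : ℕ} {S : Finset ℕ} {m D : ℕ} (h : St k S m 1 D) :
    St (k + 1) (Finset.Icc (2 * D) (2 * D + 1) ∪ S) (2 * D + 1) 1 (2 * D * (2 * D + 1)) := by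
  obtain ⟨h1, hm, _, hmD', hU, hsum⟩ := h
  have hmD : m < D := by omega
  have hdisj : Disjoint (Finset.Icc (2 * D) (2 * D + 1)) S := by
    rw [Finset.disjoint_left]
    intro x hx hx'
    simp only [Finset.mem_Icc] at hx
    have := (h1 x hx').2
    omega
  have hIcc : Finset.Icc (2 * D) (2 * D + 1) = {2 * D, 2 * D + 1} := by
    ext x
    simp only [Finset.mem_Icc, Finset.mem_insert, Finset.mem_singleton]
    omega
  refine ⟨?_, by omega, Nat.one_pos, ?_, union_Icc hU (by omega), ?_⟩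
  · intro x hx
    rcases Finset.mem_union.mp hx with hx | hx
    · simp only [Finset.mem_Icc] at hx
      omega
    · exact ⟨(h1 x hx).1, by have := (h1 x hx).2; omega⟩
  · nlinarith
  · rw [Finset.sum_union hdisj, hIcc, Finset.sum_pair (by omega)]
    have hDq : (D : ℚ) ≠ 0 := by
      have : D ≠ 0 := by omega
      exact_mod_cast this
    have hD2 : (2 * (D : ℚ) + 1) ≠ 0 := by positivity
    have key : (1 : ℚ) / ((2 * D : ℕ) : ℚ) + 1 / ((2 * D + 1 : ℕ) : ℚ) +
        ((1 : ℕ) : ℚ) / ((2 * D * (2 * D + 1) : ℕ) : ℚ) = ((1 : ℕ) : ℚ) / (D : ℚ) := by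
      push_cast
      field_simp
      ring
    linarith

theorem pair_ext : ∀ (j k : ℕ) (S : Finset ℕ) (m D : ℕ), St k S m 1 D →
    ∃ (S' : Finset ℕ) (m' D' : ℕ), St (k + j) S' m' 1 D' ∧ 4 * D' + 1 = (4 * D + 1) ^ (2 ^ j) := by
  intro j
  induction j with
  | zero => intro k S m D h; exact ⟨S, m, D, h, by simp⟩
  | succ j ih =>
    intro k S m D h
    obtain ⟨S', m', D', h2, h3⟩ := ih _ _ _ _ (st_pair h)
    refine ⟨S', m', D', ?_, ?_⟩
    · rw [show k + (j + 1) = k + 1 + j by ring]; exact h2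
    · rw [h3, pow_succ 2 j, mul_comm (2 ^ j) 2, pow_mul]
      congr 1
      ring

/-- A further denominator `y`, and cancellation of a common factor `g`. -/
theorem step_ex {k N D N' D' : ℕ} (h : ∃ (S : Finset ℕ) (m : ℕ), St k S m N D) (y g : ℕ)
    (hg : 0 < g) (hN' : 0 < N') (e : N * y = D + g * N') (eD : D * y = g * D') (hlt : g * N' < D) :
    ∃ (S : Finset ℕ) (m : ℕ), St (k + 1) S m N' D' := by
  obtain ⟨S, m, h⟩ := h
  have h1 := st_step h (Nat.mul_pos hg hN') e hlt
  rw [eD] at h1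
  refine ⟨_, y, h1.1, h1.2.1, hN', ?_, h1.2.2.2.2.1, ?_⟩
  · have h2 := h1.2.2.2.1
    have h3 : g * (y * N') < g * D' := by
      calc g * (y * N') = y * (g * N') := by ring
        _ < g * D' := h2
    exact lt_of_mul_lt_mul_left h3 (Nat.zero_le g)
  · have h2 := h1.2.2.2.2.2
    have hgq : (g : ℚ) ≠ 0 := by exact_mod_cast hg.ne'
    have h3 : ((g * N' : ℕ) : ℚ) / ((g * D' : ℕ) : ℚ) = (N' : ℚ) / (D' : ℚ) := by
      push_cast
      exact mul_div_mul_left _ _ hgq
    rw [h3] at h2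
    exact h2

/-- A further block `{y, ..., z}`, and cancellation of a common factor `g`. -/
theorem block_ex {k N D N' D' : ℕ} (h : ∃ (S : Finset ℕ) (m : ℕ), St k S m N D) (y z A B g : ℕ)
    (hyz : y ≤ z) (hy : D < N * y) (hg : 0 < g) (hN' : 0 < N') (hB0 : 0 < B)
    (hB : ∀ x ∈ Finset.Icc y z, x ∣ B) (hA : ∑ x ∈ Finset.Icc y z, B / x = A)
    (e : N * B = D * A + g * N') (eD : D * B = g * D') (hlt : z * N' < D') :
    ∃ (S : Finset ℕ) (m : ℕ), St (k + 1) S m N' D' := by
  obtain ⟨S, m, h1, hm, hN, hmN, hU, hsum⟩ := h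
  have hmy : m < y := by
    by_contra hc
    have h2 : N * y ≤ N * m := Nat.mul_le_mul_left N (by omega)
    have h3 : N * m = m * N := Nat.mul_comm _ _
    omega
  have hD : 0 < D := by omega
  have hD' : 0 < D' := by omega
  have hdisj : Disjoint (Finset.Icc y z) S := by
    rw [Finset.disjoint_left]
    intro x hx hx'
    simp only [Finset.mem_Icc] at hx
    have := (h1 x hx').2
    omega
  refine ⟨Finset.Icc y z ∪ S, z, ?_, by omega, hN', hlt, union_Icc hU hyz, ?_⟩
  · intro x hx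
    rcases Finset.mem_union.mp hx with hx | hx
    · simp only [Finset.mem_Icc] at hx
      omega
    · exact ⟨(h1 x hx).1, by have := (h1 x hx).2; omega⟩
  · rw [Finset.sum_union hdisj]
    have hBq : (B : ℚ) ≠ 0 := by exact_mod_cast hB0.ne'
    have hDq : (D : ℚ) ≠ 0 := by exact_mod_cast hD.ne'
    have hDq' : (D' : ℚ) ≠ 0 := by exact_mod_cast hD'.ne'
    have hgq : (g : ℚ) ≠ 0 := by exact_mod_cast hg.ne'
    have h2 : ∑ x ∈ Finset.Icc y z, (1 : ℚ) / (x : ℚ) = (A : ℚ) / (B : ℚ) := by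
      rw [eq_div_iff hBq, Finset.sum_mul, ← hA]
      push_cast
      refine Finset.sum_congr rfl ?_
      intro x hx
      have hxB := hB x hx
      simp only [Finset.mem_Icc] at hx
      have hxq : (x : ℚ) ≠ 0 := by
        have : x ≠ 0 := by omega
        exact_mod_cast this
      rw [Nat.cast_div hxB hxq]
      ring
    have e1 : (N : ℚ) * B = D * A + g * N' := by exact_mod_cast e
    have e2 : (D : ℚ) * B = g * D' := by exact_mod_cast eD
    have h3 : (N : ℚ) / D = (A : ℚ) / B + (N' : ℚ) / D' := by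
      have h4 : (N : ℚ) / D = (N * B) / (D * B) := (mul_div_mul_right _ _ hBq).symm
      have h5 : (A : ℚ) / B = (D * A) / (D * B) := (mul_div_mul_left _ _ hDq).symm
      have h6 : (N' : ℚ) / D' = (g * N') / (g * D') := (mul_div_mul_left _ _ hgq).symm
      rw [h4, h5, h6, ← e2, ← add_div, e1]
    rw [h2]
    linarith

/-- The first block `{a, ..., b}`. -/
theorem base_Icc (a b N D : ℕ) (ha : 0 < a) (hab : a ≤ b) (hN : 0 < N)
    (hlt : b * N < D) (hdvd : ∀ x ∈ Finset.Icc a b, x ∣ D)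
    (hsum : (∑ x ∈ Finset.Icc a b, D / x) + N = D) :
    ∃ (S : Finset ℕ) (m : ℕ), St 1 S m N D := by
  have hD : 0 < D := by omega
  refine ⟨Finset.Icc a b, b, ?_, by omega, hN, hlt, ?_, ?_⟩
  · intro x hx
    simp only [Finset.mem_Icc] at hx
    omega
  · refine ⟨fun _ => a, fun _ => b, fun _ => hab, ?_⟩
    ext x
    simp
  · have hDq : (D : ℚ) ≠ 0 := by exact_mod_cast hD.ne'
    have h1 : ∑ x ∈ Finset.Icc a b, (1 : ℚ) / (x : ℚ) =
        ((∑ x ∈ Finset.Icc a b, D / x : ℕ) : ℚ) / (D : ℚ) := by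
      rw [eq_div_iff hDq, Finset.sum_mul]
      push_cast
      refine Finset.sum_congr rfl ?_
      intro x hx
      have hxD := hdvd x hx
      simp only [Finset.mem_Icc] at hx
      have hxq : (x : ℚ) ≠ 0 := by
        have : x ≠ 0 := by omega
        exact_mod_cast this
      rw [Nat.cast_div hxD hxq]
      ring
    rw [h1, ← add_div, div_eq_one_iff_eq hDq]
    exact_mod_cast hsum

/-- From a unit fraction remainder `1 / D` after `k` blocks to all larger numbers of blocks. -/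
theorem from_unit {k D : ℕ} (h : ∃ (S : Finset ℕ) (m : ℕ), St k S m 1 D) (r : ℕ) (hr : k + 1 ≤ r) :
    ∃ (S : Finset ℕ) (x : ℕ), IsBlockRep r S ∧ x ∈ S ∧ 4 * x + 1 = (4 * D + 1) ^ (2 ^ (r - (k + 1))) := by
  obtain ⟨S, m, h⟩ := h
  obtain ⟨j, rfl⟩ : ∃ j, r = j + (k + 1) := ⟨r - (k + 1), by omega⟩
  obtain ⟨S', m', D', h1, h2⟩ := pair_ext j k S m D h
  have h3 := st_finish h1
  refine ⟨insert D' S', D', ?_, Finset.mem_insert_self _ _, ?_⟩
  · rw [show j + (k + 1) = k + j + 1 by ring]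
    exact h3
  · rw [show j + (k + 1) - (k + 1) = j by omega]
    exact h2

/-- As `sum_ge` of the starting file, for every common multiple of `1, ..., 4n`. -/
theorem sum_ge' (n D : ℕ) (hn : 2 ≤ n) (hu : 4 * n ∣ D) :
    D ≤ ∑ x ∈ Finset.Icc n (4 * n - 1), D / x := by
  obtain ⟨u, hu⟩ := hu
  have hsplit : Finset.Icc n (4 * n - 1) = Finset.Ico n (2 * n) ∪ Finset.Ico (2 * n) (4 * n) := by
    ext x
    simp only [Finset.mem_Icc, Finset.mem_union, Finset.mem_Ico]
    omega
  have hdisj : Disjoint (Finset.Ico n (2 * n)) (Finset.Ico (2 * n) (4 * n)) := by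
    rw [Finset.disjoint_left]
    intro x hx hx'
    simp only [Finset.mem_Ico] at hx hx'
    omega
  rw [hsplit, Finset.sum_union hdisj]
  have s1 : n * (D / (2 * n)) ≤ ∑ x ∈ Finset.Ico n (2 * n), D / x := by
    have : (Finset.Ico n (2 * n)).card • (D / (2 * n)) ≤ ∑ x ∈ Finset.Ico n (2 * n), D / x := by
      refine Finset.card_nsmul_le_sum _ _ _ ?_
      intro x hx
      simp only [Finset.mem_Ico] at hx
      exact Nat.div_le_div_left (by omega) (by omega)
    rw [Nat.card_Ico, smul_eq_mul] at this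
    rwa [show 2 * n - n = n by omega] at this
  have s2 : (2 * n) * (D / (4 * n)) ≤ ∑ x ∈ Finset.Ico (2 * n) (4 * n), D / x := by
    have : (Finset.Ico (2 * n) (4 * n)).card • (D / (4 * n)) ≤
        ∑ x ∈ Finset.Ico (2 * n) (4 * n), D / x := by
      refine Finset.card_nsmul_le_sum _ _ _ ?_
      intro x hx
      simp only [Finset.mem_Ico] at hx
      exact Nat.div_le_div_left (by omega) (by omega)
    rw [Nat.card_Ico, smul_eq_mul] at this
    rwa [show 4 * n - 2 * n = 2 * n by omega] at this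
  have d1 : D / (2 * n) = 2 * u := by
    rw [hu, show 4 * n * u = (2 * n) * (2 * u) by ring]
    exact Nat.mul_div_cancel_left _ (by omega)
  have d2 : D / (4 * n) = u := by
    rw [hu]
    exact Nat.mul_div_cancel_left _ (by omega)
  rw [d1] at s1
  rw [d2] at s2
  have : D = n * (2 * u) + 2 * n * u := by rw [hu]; ring
  omega

/-- The first block `{n, ..., b}`: the longest one starting at `n` with sum less than `1`. -/
theorem first_block' (n D : ℕ) (hn : 2 ≤ n) (hDpos : 0 < D) (hdvd : ∀ x, 0 < x → x ≤ 4 * n → x ∣ D) :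
    ∃ (S : Finset ℕ) (b N : ℕ), St 1 S b N D ∧ n * N ≤ D := by
  have hsum := sum_ge' n D hn (hdvd _ (by omega) le_rfl)
  let g : ℕ → ℕ := fun c => ∑ x ∈ Finset.Icc n c, D / x
  have hex : ∃ c, D ≤ g c := ⟨4 * n - 1, hsum⟩
  classical
  set c := Nat.find hex with hc
  have hcD : D ≤ g c := Nat.find_spec hex
  have hcmin : ∀ b < c, g b < D := fun b hb => not_le.mp (Nat.find_min hex hb)
  have hc4 : c ≤ 4 * n - 1 := Nat.find_min' hex hsum
  have hcn : n < c := by
    by_contra hcon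
    have h1 : g c ≤ D / n := by
      show ∑ x ∈ Finset.Icc n c, D / x ≤ D / n
      rcases Nat.lt_or_ge c n with h | h
      · rw [Finset.Icc_eq_empty (by omega)]; simp
      · have : c = n := by omega
        rw [this]; simp
    have h2 : D / n < D := Nat.div_lt_self hDpos (by omega)
    omega
  obtain ⟨b, hb⟩ : ∃ b, c = b + 1 := ⟨c - 1, by omega⟩
  have hgb : g b < D := hcmin b (by omega)
  have hgc : g (b + 1) = g b + D / (b + 1) := by
    show ∑ x ∈ Finset.Icc n (b + 1), D / x = ∑ x ∈ Finset.Icc n b, D / x + D / (b + 1)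
    rw [Finset.sum_Icc_succ_top (by omega)]
  rw [hb, hgc] at hcD
  have hNb : (D - g b) * (b + 1) ≤ D := by
    have h1 : D - g b ≤ D / (b + 1) := by omega
    calc (D - g b) * (b + 1) ≤ D / (b + 1) * (b + 1) := Nat.mul_le_mul_right _ h1
      _ ≤ D := Nat.div_mul_le_self _ _
  refine ⟨Finset.Icc n b, b, D - g b, ⟨?_, by omega, by omega, ?_, ?_, ?_⟩, ?_⟩
  · intro x hx
    simp only [Finset.mem_Icc] at hx
    omega
  · have : b * (D - g b) < (D - g b) * (b + 1) := by
      rw [Nat.mul_comm b]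
      exact Nat.mul_lt_mul_of_pos_left (by omega) (by omega)
    omega
  · refine ⟨fun _ => n, fun _ => b, fun _ => (by omega : n ≤ b), ?_⟩
    ext x
    simp
  · have hgq : ∑ x ∈ Finset.Icc n b, (1 : ℚ) / (x : ℚ) = (g b : ℚ) / (D : ℚ) := by
      have hDq : (D : ℚ) ≠ 0 := by exact_mod_cast hDpos.ne'
      rw [eq_div_iff hDq, Finset.sum_mul]
      show _ = ((∑ x ∈ Finset.Icc n b, D / x : ℕ) : ℚ)
      push_cast
      refine Finset.sum_congr rfl ?_
      intro x hx
      simp only [Finset.mem_Icc] at hx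
      have hxD : x ∣ D := hdvd x (by omega) (by omega)
      have hxq : (x : ℚ) ≠ 0 := by
        have : x ≠ 0 := by omega
        exact_mod_cast this
      rw [Nat.cast_div hxD hxq]
      ring
    rw [hgq, Nat.cast_sub hgb.le]
    have hDq : (D : ℚ) ≠ 0 := by exact_mod_cast hDpos.ne'
    field_simp
    ring
  · calc n * (D - g b) ≤ (b + 1) * (D - g b) := Nat.mul_le_mul_right _ (by omega)
      _ = (D - g b) * (b + 1) := Nat.mul_comm _ _
      _ ≤ D := hNb

/-- The bound `n ^ (2 ^ (r - 2))` for all `r` larger than a common multiple of `1, ..., 4n`. -/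
theorem growth_lcm (n D : ℕ) (hn : 2 ≤ n) (hDpos : 0 < D)
    (hdvd : ∀ x, 0 < x → x ≤ 4 * n → x ∣ D) (r : ℕ) (hr : D < r) :
    ∃ S : Finset ℕ, IsBlockRep r S ∧ ∃ x ∈ S, n ^ (2 ^ (r - 2)) ≤ x := by
  obtain ⟨S, b, N, hS, hN⟩ := first_block' n D hn hDpos hdvd
  have hNpos : 0 < N := hS.2.2.1
  have hND : N ≤ D := le_trans (Nat.le_mul_of_pos_left N (by omega)) hN
  have hN1 : N + 1 ≤ n * N := by nlinarith
  obtain ⟨j, rfl⟩ : ∃ j, r = j + 2 := ⟨r - 2, by omega⟩
  obtain ⟨S', m', D', h1, h2⟩ := greedy N 1 S b D hS j (by omega)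
  have h3 := st_finish h1
  rw [show 1 + j + 1 = j + 2 by ring] at h3
  refine ⟨insert D' S', h3, D', Finset.mem_insert_self _ _, ?_⟩
  rw [show j + 2 - 2 = j by omega]
  have h4 : (n * N) ^ (2 ^ j) ≤ D' * N ^ (2 ^ j) := le_trans (Nat.pow_le_pow_left hN _) h2
  rw [mul_pow] at h4
  exact le_of_mul_le_mul_right h4 (pow_pos hNpos _)

/-- `lcm (1, ..., 4n) < e ^ (22 n)`. -/
theorem lcm_lt (n : ℕ) (hn : 1 ≤ n) : (Nat.lcmUpto (4 * n) : ℝ) < Real.exp (22 * n) := by
  have h0 : (0 : ℝ) < (Nat.lcmUpto (4 * n) : ℝ) := by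
    exact_mod_cast Nat.lcmUpto_pos _
  have hn' : (1 : ℝ) ≤ (n : ℝ) := by exact_mod_cast hn
  rw [← Real.log_lt_iff_lt_exp h0, ← Chebyshev.psi_eq_log_lcmUpto]
  have h1 := Chebyshev.psi_le_const_mul_self (x := ((4 * n : ℕ) : ℝ)) (by positivity)
  have h2 : Real.log 4 < 1.4 := by
    have h3 : Real.log 4 = 2 * Real.log 2 := by
      rw [show (4 : ℝ) = 2 ^ 2 by norm_num, Real.log_pow]
      norm_num
    rw [h3]
    have := Real.log_two_lt_d9
    linarith
  push_cast at h1 ⊢
  nlinarith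

theorem growth_exp (n : ℕ) (hn : 2 ≤ n) (r : ℕ) (hr : Real.exp (22 * n) ≤ (r : ℝ)) :
    ∃ S : Finset ℕ, IsBlockRep r S ∧ ∃ x ∈ S, n ^ (2 ^ (r - 2)) ≤ x := by
  refine growth_lcm n (Nat.lcmUpto (4 * n)) hn (Nat.lcmUpto_pos _) ?_ r ?_
  · intro x hx hx4
    exact Finset.dvd_lcm (f := id) (by rw [Finset.mem_Icc]; omega)
  · have := lcm_lt n (by omega)
    exact_mod_cast lt_of_lt_of_le this hr

end Pool.Agent.Y350.FR
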